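import Mathlib

set_option linter.unusedSectionVars false

open Set Topology TopologicalSpace

namespace Pool.Agent.N485.TC

/-- Jones's set function `T`: the complement of the set of points `p` having a subcontinuum
`W` (a closed connected nonempty subset) with `p` in the interior of `W` and `W ∩ A = ∅`. -/
def jonesT {S : Type*} [TopologicalSpace S] (A : Set S) : Set S :=
  {p | ∃ W : Set S, IsClosed W ∧ IsConnected W ∧ p ∈ interior W ∧ W ∩ A = ∅}ᶜ

variable {S : Type*} [TopologicalSpace S]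


theorem notMem_T_iff {A : Set S} {p : S} :
    p ∉ jonesT A ↔ ∃ W : Set S, IsClosed W ∧ IsConnected W ∧ p ∈ interior W ∧ W ∩ A = ∅ := by
  unfold jonesT
  rw [mem_compl_iff, not_not, mem_ofPred_eq]

theorem isClosed_T (A : Set S) : IsClosed (jonesT A) := by
  rw [← isOpen_compl_iff, isOpen_iff_mem_nhds]
  intro p hp
  rw [mem_compl_iff, notMem_T_iff] at hp
  obtain ⟨W, hW, hWc, hpW, hWA⟩ := hp
  filter_upwards [isOpen_interior.mem_nhds hpW] with q hq
  rw [mem_compl_iff, notMem_T_iff]
  exact ⟨W, hW, hWc, hq, hWA⟩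

theorem subset_T (A : Set S) : A ⊆ jonesT A := by
  intro p hp hq
  obtain ⟨W, -, -, hpW, hWA⟩ := hq
  have : p ∈ W ∩ A := ⟨interior_subset hpW, hp⟩
  rw [hWA] at this
  exact this

theorem T_mono {A B : Set S} (h : A ⊆ B) : jonesT A ⊆ jonesT B := by
  intro p hp
  by_contra hq
  rw [notMem_T_iff] at hq
  obtain ⟨W, hW, hWc, hpW, hWB⟩ := hq
  apply (notMem_T_iff.2 ⟨W, hW, hWc, hpW, ?_⟩) hp
  exact subset_empty_iff.1 (hWB ▸ inter_subset_inter_right W h)

theorem T_empty [ConnectedSpace S] : jonesT (∅ : Set S) = ∅ := by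
  rw [eq_empty_iff_forall_notMem]
  intro p
  rw [notMem_T_iff]
  exact ⟨univ, isClosed_univ, isConnected_univ, by simp, by simp⟩

theorem T_disjoint_interior {A W : Set S} (hW : IsClosed W) (hWc : IsConnected W)
    (h : W ∩ A = ∅) : Disjoint (jonesT A) (interior W) := by
  rw [Set.disjoint_left]
  intro p hp hpW
  exact notMem_T_iff.2 ⟨W, hW, hWc, hpW, h⟩ hp

variable [CompactSpace S]

/-- A compact set missed by `T A` is covered by the interiors of finitely many continua
missing `A`. -/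
theorem exists_finite_cover {A C : Set S} (hC : IsClosed C) (h : Disjoint C (jonesT A)) :
    ∃ 𝒲 : Set (Set S), 𝒲.Finite ∧ (∀ W ∈ 𝒲, IsClosed W ∧ IsConnected W ∧ W ∩ A = ∅) ∧
      ∀ x ∈ C, ∃ W ∈ 𝒲, x ∈ interior W := by
  have hex : ∀ x : S, ∃ W : Set S, x ∈ C →
      IsClosed W ∧ IsConnected W ∧ x ∈ interior W ∧ W ∩ A = ∅ := by
    intro x
    by_cases hx : x ∈ C
    · obtain ⟨W, h1, h2, h3, h4⟩ := notMem_T_iff.1 (Set.disjoint_left.1 h hx)
      exact ⟨W, fun _ => ⟨h1, h2, h3, h4⟩⟩
    · exact ⟨∅, fun h' => absurd h' hx⟩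
  choose W hW using hex
  obtain ⟨t, htC, hcov⟩ := hC.isCompact.elim_nhds_subcover (fun x => interior (W x))
    (fun x hx => isOpen_interior.mem_nhds (hW x hx).2.2.1)
  refine ⟨W '' (t : Set S), t.finite_toSet.image _, ?_, ?_⟩
  · rintro _ ⟨x, hx, rfl⟩
    have := hW x (htC x (by simpa using hx))
    exact ⟨this.1, this.2.1, this.2.2.2⟩
  · intro x hx
    have := hcov hx
    simp only [mem_iUnion] at this
    obtain ⟨y, hy, hxy⟩ := this
    exact ⟨W y, ⟨y, by simpa using hy, rfl⟩, hxy⟩

/-- `T` is upper semicontinuous. -/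
theorem T_usc {A V : Set S} (hV : IsOpen V) (h : jonesT A ⊆ V) :
    ∃ U, IsOpen U ∧ A ⊆ U ∧ ∀ B, B ⊆ U → jonesT B ⊆ V := by
  obtain ⟨𝒲, hfin, hW, hcov⟩ := exists_finite_cover (A := A) (C := Vᶜ) hV.isClosed_compl
    (Set.disjoint_left.2 fun x hx hx' => hx (h hx'))
  refine ⟨(⋃ W ∈ 𝒲, W)ᶜ, ?_, ?_, ?_⟩
  · rw [isOpen_compl_iff]
    exact hfin.isClosed_biUnion fun W hWm => (hW W hWm).1
  · intro a ha
    rw [mem_compl_iff]
    intro h'
    simp only [mem_iUnion] at h'
    obtain ⟨W, hWm, haW⟩ := h'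
    have : a ∈ W ∩ A := ⟨haW, ha⟩
    rw [(hW W hWm).2.2] at this
    exact this
  · intro B hB p hp
    by_contra hpV
    obtain ⟨W, hWm, hpW⟩ := hcov p hpV
    refine notMem_T_iff.2 ⟨W, (hW W hWm).1, (hW W hWm).2.1, hpW, ?_⟩ hp
    rw [eq_empty_iff_forall_notMem]
    rintro x ⟨hxW, hxB⟩
    apply hB hxB
    simp only [mem_iUnion]
    exact ⟨W, hWm, hxW⟩

/-- For `V` open, the set of `x` with `T (insert x B) ⊆ V` is open. -/
theorem isOpen_usc (B : Set S) {V : Set S} (hV : IsOpen V) :
    IsOpen {x | jonesT (insert x B) ⊆ V} := by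
  rw [isOpen_iff_mem_nhds]
  intro x hx
  obtain ⟨U, hU, hxU, h⟩ := T_usc hV hx
  have hx' : x ∈ U := hxU (mem_insert _ _)
  filter_upwards [hU.mem_nhds hx'] with y hy
  exact h _ (insert_subset hy ((subset_insert x B).trans hxU))

theorem isOpen_usc_singleton {V : Set S} (hV : IsOpen V) :
    IsOpen {x | jonesT {x} ⊆ V} := by
  have := isOpen_usc (∅ : Set S) hV
  simpa using this

/-- A nonempty piece of a closed set can be separated from a set missing the component. -/
theorem exists_sep [T2Space S] {E F : Set S} (hE : IsClosed E) (hF : IsClosed F) {x : S}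
    (hx : x ∈ E) (h : Disjoint (connectedComponentIn E x) F) :
    ∃ K1 K2, IsClosed K1 ∧ IsClosed K2 ∧ K1 ∪ K2 = E ∧ Disjoint K1 K2 ∧ x ∈ K1 ∧
      Disjoint K1 F := by
  have hcomp : CompactSpace E := isCompact_iff_compactSpace.1 hE.isCompact
  have h1 := connectedComponent_eq_iInter_isClopen (⟨x, hx⟩ : E)
  rw [connectedComponentIn_eq_image hx, h1] at h
  -- the intersection of clopen sets misses the trace of `F`
  set F' : Set E := Subtype.val ⁻¹' F with hF'
  have hF'c : IsClosed F' := hF.preimage continuous_subtype_val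
  have hdis : F' ∩ (⋂ s : { s : Set E // IsClopen s ∧ (⟨x, hx⟩ : E) ∈ s }, (s : Set E)) = ∅ := by
    rw [eq_empty_iff_forall_notMem]
    rintro y ⟨hy1, hy2⟩
    exact Set.disjoint_left.1 h ⟨y, hy2, rfl⟩ hy1
  have hne : Nonempty { s : Set E // IsClopen s ∧ (⟨x, hx⟩ : E) ∈ s } :=
    ⟨⟨univ, isClopen_univ, mem_univ _⟩⟩
  obtain ⟨t, ht⟩ := hF'c.isCompact.elim_finite_subfamily_closed
    (fun s : { s : Set E // IsClopen s ∧ (⟨x, hx⟩ : E) ∈ s } => (s : Set E))
    (fun s => s.2.1.isClosed) hdis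
  set K : Set E := ⋂ i ∈ t, (i : Set E) with hK
  have hKc : IsClopen K := by
    apply t.finite_toSet.isClopen_biInter
    intro s _
    exact s.2.1
  have hxK : (⟨x, hx⟩ : E) ∈ K := by
    rw [hK, mem_iInter₂]
    intro s _
    exact s.2.2
  refine ⟨Subtype.val '' K, Subtype.val '' Kᶜ, ?_, ?_, ?_, ?_, ?_, ?_⟩
  · exact hE.isClosedEmbedding_subtypeVal.isClosedMap _ hKc.isClosed
  · exact hE.isClosedEmbedding_subtypeVal.isClosedMap _ hKc.compl.isClosed
  · rw [← image_union, union_compl_self, image_univ, Subtype.range_coe]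
  · rw [Set.disjoint_image_iff Subtype.val_injective]
    exact disjoint_compl_right
  · exact ⟨_, hxK, rfl⟩
  · rw [Set.disjoint_left]
    rintro _ ⟨y, hy, rfl⟩ hyF
    have : y ∈ F' ∩ K := ⟨hyF, hy⟩
    rw [ht] at this
    exact this

omit [CompactSpace S] in
theorem isClosed_connectedComponentIn [T2Space S] {E : Set S} (hE : IsClosed E) (x : S) :
    IsClosed (connectedComponentIn E x) := by
  by_cases hx : x ∈ E
  · rw [connectedComponentIn_eq_image hx]
    exact hE.isClosedEmbedding_subtypeVal.isClosedMap _ isClosed_connectedComponent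
  · rw [connectedComponentIn_eq_empty hx]
    exact isClosed_empty

/-- Boundary bumping in the form needed here. -/
theorem exists_continuum [T2Space S] {W H : Set S} (hW : IsClosed W) (hWc : IsConnected W)
    (hH : IsOpen H) {q : S} (hqW : q ∈ interior W) (hqH : q ∈ H) {𝒲 : Set (Set S)}
    (hfin : 𝒲.Finite) (h𝒲 : ∀ V ∈ 𝒲, IsClosed V ∧ IsConnected V)
    (hfr : ∀ x ∈ frontier H, ∃ V ∈ 𝒲, x ∈ V) :
    ∃ W' : Set S, IsClosed W' ∧ IsConnected W' ∧ q ∈ interior W' ∧
      W' ⊆ (W ∩ closure H) ∪ ⋃ V ∈ 𝒲, V := by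
  set X : Set S := (W ∩ closure H) ∪ ⋃ V ∈ 𝒲, V with hX
  have hXc : IsClosed X := by
    apply (hW.inter isClosed_closure).union
    exact hfin.isClosed_biUnion fun V hV => (h𝒲 V hV).1
  have hqX : q ∈ X := Or.inl ⟨interior_subset hqW, subset_closure hqH⟩
  refine ⟨connectedComponentIn X q, isClosed_connectedComponentIn hXc q,
    isConnected_connectedComponentIn_iff.2 hqX, ?_, connectedComponentIn_subset X q⟩
  by_cases hWH : W ⊆ closure H
  · apply interior_mono _ hqW
    apply hWc.isPreconnected.subset_connectedComponentIn (interior_subset hqW)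
    intro w hw
    exact Or.inl ⟨hw, hWH hw⟩
  · -- every component of `W ∩ closure H` meets the frontier of `H`
    have key : ∀ x ∈ W ∩ closure H,
        (connectedComponentIn (W ∩ closure H) x ∩ frontier H).Nonempty := by
      intro x hx
      by_contra hcon
      rw [not_nonempty_iff_eq_empty, ← disjoint_iff_inter_eq_empty] at hcon
      obtain ⟨K1, K2, hK1, hK2, hK12, hdis, hxK1, hK1F⟩ :=
        exists_sep (hW.inter isClosed_closure) isClosed_frontier hx hcon
      -- `K1` is clopen in `W`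
      have hK1sub : K1 ⊆ W ∩ closure H := hK12 ▸ subset_union_left
      have hK1H : K1 ⊆ H := by
        intro y hy
        by_contra hyH
        refine Set.disjoint_left.1 hK1F hy ?_
        rw [frontier, hH.interior_eq]
        exact ⟨(hK1sub hy).2, hyH⟩
      apply hWH
      have hWsub : W ⊆ K1 := by
        intro y hy
        by_contra hyK
        have hcov : W ⊆ (H \ K2) ∪ K1ᶜ := by
          intro z hz
          by_cases hzK : z ∈ K1
          · exact Or.inl ⟨hK1H hzK, fun h2 => Set.disjoint_left.1 hdis hzK h2⟩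
          · exact Or.inr hzK
        obtain ⟨z, hzW, ⟨hzH, hzK2⟩, hzK1⟩ := hWc.isPreconnected (H \ K2) K1ᶜ (hH.sdiff hK2)
          hK1.isOpen_compl hcov ⟨x, hx.1, hK1H hxK1, fun h2 => Set.disjoint_left.1 hdis hxK1 h2⟩
          ⟨y, hy, hyK⟩
        have : z ∈ K1 ∪ K2 := hK12 ▸ ⟨hzW, subset_closure hzH⟩
        rcases this with h | h
        · exact hzK1 h
        · exact hzK2 h
      exact hWsub.trans (hK1H.trans subset_closure)
    -- each component of `X` contains a member of `𝒲`
    have key2 : ∀ x ∈ X, ∃ V ∈ 𝒲, ∀ w ∈ V, x ∈ connectedComponentIn X w := by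
      intro x hx
      have hV𝒲 : ∀ V ∈ 𝒲, V ⊆ X := fun V hV x hx => Or.inr (mem_biUnion hV hx)
      rcases hx with hx | hx
      · obtain ⟨y, hy, hyF⟩ := key x hx
        obtain ⟨V, hV, hyV⟩ := hfr y hyF
        refine ⟨V, hV, fun w hw => ?_⟩
        have h1 : x ∈ connectedComponentIn X y := by
          have h2 : connectedComponentIn (W ∩ closure H) x ⊆ connectedComponentIn X y :=
            isPreconnected_connectedComponentIn.subset_connectedComponentIn hy
              ((connectedComponentIn_subset _ _).trans subset_union_left)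
          exact h2 (mem_connectedComponentIn hx)
        have h3 : y ∈ connectedComponentIn X w :=
          (h𝒲 V hV).2.isPreconnected.subset_connectedComponentIn hw (hV𝒲 V hV) hyV
        rw [← connectedComponentIn_eq h3] at h1
        exact h1
      · simp only [mem_iUnion] at hx
        obtain ⟨V, hV, hxV⟩ := hx
        exact ⟨V, hV, fun w hw =>
          (h𝒲 V hV).2.isPreconnected.subset_connectedComponentIn hw (hV𝒲 V hV) hxV⟩
    set Z : Set S := ⋃ V ∈ {V ∈ 𝒲 | ∀ w ∈ V, q ∉ connectedComponentIn X w},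
      ⋂ w ∈ V, connectedComponentIn X w with hZ
    have hZc : IsClosed Z := by
      apply (hfin.subset (fun V hV => hV.1)).isClosed_biUnion
      intro V _
      exact isClosed_biInter fun w _ => isClosed_connectedComponentIn hXc w
    have hqZ : q ∉ Z := by
      intro h
      simp only [hZ, mem_iUnion] at h
      obtain ⟨V, hV, hqV⟩ := h
      obtain ⟨w, hw⟩ := (h𝒲 V hV.1).2.nonempty
      rw [mem_iInter₂] at hqV
      exact hV.2 w hw (hqV w hw)
    rw [mem_interior]
    refine ⟨(interior W ∩ H) \ Z, ?_, (isOpen_interior.inter hH).sdiff hZc, ⟨⟨hqW, hqH⟩, hqZ⟩⟩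
    rintro y ⟨⟨hyW, hyH⟩, hyZ⟩
    have hyX : y ∈ X := Or.inl ⟨interior_subset hyW, subset_closure hyH⟩
    obtain ⟨V, hV, hVy⟩ := key2 y hyX
    have : ∃ w ∈ V, q ∈ connectedComponentIn X w := by
      by_contra hcon
      push Not at hcon
      apply hyZ
      simp only [hZ, mem_iUnion]
      exact ⟨V, ⟨hV, hcon⟩, mem_iInter₂.2 hVy⟩
    obtain ⟨w, hw, hqw⟩ := this
    rw [← connectedComponentIn_eq hqw]
    exact hVy w hw

/-- Lemma L: if `T A` splits as a disjoint union of closed sets `K1`, `K2`, then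
`T (A ∩ K1) = K1`. -/
theorem T_inter_eq [T2Space S] [ConnectedSpace S] {A K1 K2 : Set S} (hK1 : IsClosed K1)
    (hK2 : IsClosed K2) (hdis : Disjoint K1 K2) (hTA : jonesT A = K1 ∪ K2) :
    jonesT (A ∩ K1) = K1 := by
  have hA : A ⊆ K1 ∪ K2 := hTA ▸ subset_T A
  have hTAc := isClosed_T A
  apply subset_antisymm
  · intro q hq
    by_contra hqK1
    have hqK2 : q ∈ K2 := by
      have : q ∈ K1 ∪ K2 := hTA ▸ T_mono inter_subset_left hq
      exact this.resolve_left hqK1
    obtain ⟨H, hH, hK2H, hcl⟩ := normal_exists_closure_subset hK2 hK1.isOpen_compl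
      (fun x hx h1 => Set.disjoint_left.1 hdis h1 hx)
    have hfr : Disjoint (frontier H) (jonesT A) := by
      rw [Set.disjoint_left]
      intro x hx hxT
      rw [hTA] at hxT
      rcases hxT with h | h
      · exact hcl (frontier_subset_closure hx) h
      · rw [hH.frontier_eq] at hx
        exact hx.2 (hK2H h)
    obtain ⟨𝒲, hfin, h𝒲, hcov⟩ := exists_finite_cover isClosed_frontier hfr
    obtain ⟨W', hW', hW'c, hqW', hsub⟩ := exists_continuum (W := univ) (H := H) isClosed_univ
      isConnected_univ hH (by simp) (hK2H hqK2) hfin (fun V hV => ⟨(h𝒲 V hV).1, (h𝒲 V hV).2.1⟩)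
      (fun x hx => by
        obtain ⟨V, hV, hxV⟩ := hcov x hx
        exact ⟨V, hV, interior_subset hxV⟩)
    refine notMem_T_iff.2 ⟨W', hW', hW'c, hqW', ?_⟩ hq
    rw [eq_empty_iff_forall_notMem]
    rintro x ⟨hxW, hxA, hxK⟩
    rcases hsub hxW with h | h
    · exact hcl h.2 hxK
    · simp only [mem_iUnion] at h
      obtain ⟨V, hV, hxV⟩ := h
      have : x ∈ V ∩ A := ⟨hxV, hxA⟩
      rw [(h𝒲 V hV).2.2] at this
      exact this
  · intro q hqK1
    by_contra hq
    obtain ⟨W, hW, hWc, hqW, hWA⟩ := notMem_T_iff.1 hq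
    obtain ⟨H, hH, hK1H, hcl⟩ := normal_exists_closure_subset hK1 hK2.isOpen_compl
      (fun x hx h1 => Set.disjoint_left.1 hdis hx h1)
    have hfr : Disjoint (frontier H) (jonesT A) := by
      rw [Set.disjoint_left]
      intro x hx hxT
      rw [hTA] at hxT
      rcases hxT with h | h
      · rw [hH.frontier_eq] at hx
        exact hx.2 (hK1H h)
      · exact hcl (frontier_subset_closure hx) h
    obtain ⟨𝒲, hfin, h𝒲, hcov⟩ := exists_finite_cover isClosed_frontier hfr
    obtain ⟨W', hW', hW'c, hqW', hsub⟩ := exists_continuum hW hWc hH hqW (hK1H hqK1) hfin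
      (fun V hV => ⟨(h𝒲 V hV).1, (h𝒲 V hV).2.1⟩)
      (fun x hx => by
        obtain ⟨V, hV, hxV⟩ := hcov x hx
        exact ⟨V, hV, interior_subset hxV⟩)
    have : q ∉ jonesT A := by
      refine notMem_T_iff.2 ⟨W', hW', hW'c, hqW', ?_⟩
      rw [eq_empty_iff_forall_notMem]
      rintro x ⟨hxW, hxA⟩
      rcases hsub hxW with h | h
      · rcases hA hxA with h1 | h2
        · have : x ∈ W ∩ (A ∩ K1) := ⟨h.1, hxA, h1⟩
          rw [hWA] at this
          exact this
        · exact hcl h.2 h2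
      · simp only [mem_iUnion] at h
        obtain ⟨V, hV, hxV⟩ := h
        have : x ∈ V ∩ A := ⟨hxV, hxA⟩
        rw [(h𝒲 V hV).2.2] at this
        exact this
    apply this
    rw [hTA]
    exact Or.inl hqK1

end Pool.Agent.N485.TC
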