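import Pool.Agent.N485.TC.Lsc

set_option linter.unusedSectionVars false

open Set Topology TopologicalSpace

namespace Pool.Agent.N485.TC


variable {S : Type*} [TopologicalSpace S]

/-- Points linked with `B`. -/
def Lk (B : Set S) : Set S := {x | Disjoint (jonesT {x}) (jonesT B) ∧ jonesT (insert x B) ≠ jonesT B ∪ jonesT {x}}

/-- Points apart from and unlinked with `B`. -/
def Un (B : Set S) : Set S := {x | Disjoint (jonesT {x}) (jonesT B) ∧ jonesT (insert x B) = jonesT B ∪ jonesT {x}}

theorem disjoint_Lk_Un (B : Set S) : Disjoint (Lk B) (Un B) := by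
  rw [Set.disjoint_left]
  intro x hx hx'
  exact hx.2 hx'.2

variable [CompactSpace S] [T2Space S] [ConnectedSpace S]

theorem mem_Lk_or_Un {B : Set S} {x : S} (h : Disjoint (jonesT {x}) (jonesT B)) :
    x ∈ Lk B ∪ Un B := by
  by_cases h' : jonesT (insert x B) = jonesT B ∪ jonesT {x}
  · exact Or.inr ⟨h, h'⟩
  · exact Or.inl ⟨h, h'⟩

theorem isOpen_Lk (hl : IsLsc S) {B : Set S} (hB : IsClosed B) : IsOpen (Lk B) := by
  rw [isOpen_iff_mem_nhds]
  rintro x ⟨hxd, hx⟩
  have hne : ∃ q ∈ jonesT (insert x B), q ∉ jonesT B ∪ jonesT {x} := by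
    by_contra hcon
    push Not at hcon
    apply hx
    apply subset_antisymm hcon
    apply union_subset
    · exact T_mono (subset_insert x B)
    · exact T_mono (by simp)
  obtain ⟨q, hq, hq'⟩ := hne
  have hcl : IsClosed (jonesT B ∪ jonesT {x}) := (isClosed_T B).union (isClosed_T {x})
  obtain ⟨V1, V2, hV1, hV2, hqV1, hV2s, hV12⟩ := normal_separation isClosed_singleton hcl
    (Set.disjoint_singleton_left.2 hq')
  obtain ⟨U1, U2, hU1, hU2, hU1s, hU2s, hU12⟩ := normal_separation (isClosed_T {x})
    (isClosed_T B) hxd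
  have h1 := isOpen_lsc hl hB hV1
  have h2 : IsOpen {x | jonesT {x} ⊆ V2} := isOpen_usc_singleton hV2
  have h3 : IsOpen {x | jonesT {x} ⊆ U1} := isOpen_usc_singleton hU1
  filter_upwards [h1.mem_nhds ⟨q, hq, hqV1 rfl⟩, h2.mem_nhds (subset_union_right.trans hV2s),
    h3.mem_nhds hU1s] with y hy1 hy2 hy3
  refine ⟨?_, ?_⟩
  · exact hU12.mono hy3 hU2s
  · intro hcon
    obtain ⟨w, hw, hwV⟩ := hy1
    rw [hcon] at hw
    rcases hw with hw | hw
    · exact Set.disjoint_left.1 hV12 hwV (hV2s (Or.inl hw))
    · exact Set.disjoint_left.1 hV12 hwV (hy2 hw)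

theorem isOpen_Un (B : Set S) : IsOpen (Un B) := by
  rw [isOpen_iff_mem_nhds]
  rintro x ⟨hxd, hx⟩
  obtain ⟨V1, V2, hV1, hV2, hV1s, hV2s, hV12⟩ := normal_separation (isClosed_T B)
    (isClosed_T {x}) hxd.symm
  have h1 : IsOpen {x | jonesT {x} ⊆ V2} := isOpen_usc_singleton hV2
  have h2 : IsOpen {x | jonesT (insert x B) ⊆ V1 ∪ V2} := isOpen_usc B (hV1.union hV2)
  filter_upwards [h1.mem_nhds hV2s, h2.mem_nhds (by
    change jonesT (insert x B) ⊆ V1 ∪ V2
    rw [hx]; exact union_subset_union hV1s hV2s)] with y hy1 hy2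
  refine ⟨(hV12.symm.mono hy1 hV1s), ?_⟩
  have hyT : y ∈ V2 := hy1 (mem_T_self y)
  have hyV1 : y ∉ V1 := fun h => Set.disjoint_left.1 hV12 h hyT
  -- the two pieces
  have hTc := isClosed_T (insert y B)
  have e : jonesT (insert y B) = (jonesT (insert y B) \ V2) ∪ (jonesT (insert y B) \ V1) := by
    ext z
    constructor
    · intro hz
      rcases hy2 hz with h | h
      · exact Or.inl ⟨hz, fun h' => Set.disjoint_left.1 hV12 h h'⟩
      · exact Or.inr ⟨hz, fun h' => Set.disjoint_left.1 hV12 h' h⟩
    · rintro (h | h)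
      · exact h.1
      · exact h.1
  have hd : Disjoint (jonesT (insert y B) \ V2) (jonesT (insert y B) \ V1) := by
    rw [Set.disjoint_left]
    rintro z ⟨hz, hz2⟩ ⟨-, hz1⟩
    rcases hy2 hz with h | h
    · exact hz1 h
    · exact hz2 h
  have k1 : IsClosed (jonesT (insert y B) \ V2) := hTc.sdiff hV2
  have k2 : IsClosed (jonesT (insert y B) \ V1) := hTc.sdiff hV1
  have l1 := T_inter_eq k1 k2 hd e
  have l2 := T_inter_eq k2 k1 hd.symm (by rw [union_comm]; exact e)
  have m1 : insert y B ∩ (jonesT (insert y B) \ V2) = B := by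
    ext z
    constructor
    · rintro ⟨hz, -, hz2⟩
      rcases hz with rfl | hz
      · exact absurd hyT hz2
      · exact hz
    · intro hz
      refine ⟨mem_insert_of_mem _ hz, subset_T _ (mem_insert_of_mem _ hz), fun h => ?_⟩
      exact Set.disjoint_left.1 hV12 (hV1s (subset_T _ hz)) h
  have m2 : insert y B ∩ (jonesT (insert y B) \ V1) = {y} := by
    ext z
    constructor
    · rintro ⟨hz, -, hz2⟩
      rcases hz with rfl | hz
      · rfl
      · exact absurd (hV1s (subset_T _ hz)) hz2
    · rintro rfl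
      exact ⟨mem_insert _ _, subset_T _ (mem_insert _ _), hyV1⟩
  rw [m1] at l1
  rw [m2] at l2
  rw [l1, l2]
  exact e

/-- (A1) -/
theorem linked_of_connected (hl : IsLsc S) {B X : Set S} (hB : IsClosed B)
    (hX : IsPreconnected X) (hd : ∀ x ∈ X, Disjoint (jonesT {x}) (jonesT B)) {x y : S} (hx : x ∈ X)
    (hy : y ∈ X) (h : x ∈ Lk B) : y ∈ Lk B := by
  have h1 : X ⊆ Lk B := by
    apply hX.subset_left_of_subset_union (isOpen_Lk hl hB) (isOpen_Un B) (disjoint_Lk_Un B)
    · intro z hz
      exact mem_Lk_or_Un (hd z hz)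
    · exact ⟨x, hx, h⟩
  exact h1 hy

theorem pair_symm {x y : S} : x ∈ Lk {y} ↔ y ∈ Lk {x} := by
  unfold Lk
  simp only [mem_ofPred_eq]
  have : (insert x {y} : Set S) = insert y {x} := pair_comm x y
  rw [this, disjoint_comm, union_comm (jonesT {y}) (jonesT {x})]

/-- (A2) -/
theorem isPreconnected_of_linked {x b : S} (h : x ∈ Lk {b}) : IsPreconnected (jonesT {x, b}) :=
  isPreconnected_T_pair h.2

theorem minPts_disjoint (hl : IsLsc S) {y : S} {A : Set S} (hy : y ∈ minPts S) (h : y ∉ jonesT A) :
    Disjoint (jonesT {y}) (jonesT A) := by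
  by_contra hcon
  rw [disjoint_iff_inter_eq_empty, ← ne_eq, ← nonempty_iff_ne_empty] at hcon
  exact h (mem_of_inter hl hy hcon)

/-- the class of a point of `Lk B` stays in `Lk B`, similarly for `Un B` -/
theorem T_subset_Lk (hl : IsLsc S) {B : Set S} (hB : IsClosed B) {x : S} (hx : x ∈ Lk B) :
    jonesT {x} ⊆ Lk B := fun _ hy =>
  linked_of_connected hl hB (isPreconnected_T_singleton x)
    (fun _ hz => hx.1.mono_left (T_singleton_subset hl hz)) (mem_T_self x) hy hx

theorem T_subset_Un (hl : IsLsc S) {B : Set S} (hB : IsClosed B) {x : S} (hx : x ∈ Un B) :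
    jonesT {x} ⊆ Un B := by
  intro y hy
  have hd := hx.1.mono_left (T_singleton_subset hl hy)
  rcases mem_Lk_or_Un hd with h | h
  · exfalso
    have := linked_of_connected hl hB (isPreconnected_T_singleton x)
      (fun _ hz => hx.1.mono_left (T_singleton_subset hl hz)) hy (mem_T_self x) h
    exact Set.disjoint_left.1 (disjoint_Lk_Un B) this hx
  · exact h

/-- (A3) -/
theorem linked_step (hl : IsLsc S) {y b q : S} (hy : y ∈ minPts S) (hb : b ∈ minPts S)
    (hyb : b ∈ Lk {y}) (hq : q ∈ minPts S) (hqL : q ∈ jonesT {b, y}) (hqy : q ∉ jonesT {y}) :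
    q ∈ Lk {y} := by
  have hsing : ∀ z : S, IsClosed ({z} : Set S) := fun z => isClosed_singleton
  have hL : IsPreconnected (jonesT {b, y}) := isPreconnected_of_linked hyb
  have hQL : IsPreconnected (minPts S ∩ jonesT {b, y}) :=
    isPreconnected_minPts_inter hl hL (isClosed_T _) (fun x hx => T_singleton_subset hl hx)
  have hyL : y ∈ jonesT {b, y} := subset_T _ (by simp)
  have hbL : b ∈ jonesT {b, y} := subset_T _ (by simp)
  have hCX : jonesT {y} ⊆ minPts S ∩ jonesT {b, y} := fun z hz =>
    ⟨mem_minPts_of_mem hl hy hz, T_singleton_subset hl hyL hz⟩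
  have hcov : minPts S ∩ jonesT {b, y} ⊆ jonesT {y} ∪ Lk {y} ∪ Un {y} := by
    rintro z ⟨hzM, -⟩
    by_cases hz : z ∈ jonesT {y}
    · exact Or.inl (Or.inl hz)
    · rcases mem_Lk_or_Un (minPts_disjoint hl hzM hz) with h | h
      · exact Or.inl (Or.inr h)
      · exact Or.inr h
  have hcov' : minPts S ∩ jonesT {b, y} ⊆ jonesT {y} ∪ Un {y} ∪ Lk {y} := by
    rw [union_right_comm]; exact hcov
  have hC0 : IsPreconnected (jonesT {y} ∪ (minPts S ∩ jonesT {b, y} ∩ Un {y})) :=
    isPreconnected_union_part hQL (isPreconnected_T_singleton y) ⟨y, mem_T_self y⟩ hCX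
      (isOpen_Un {y}) (isOpen_Lk hl (hsing y)) (disjoint_Lk_Un _).symm hcov'
  have hC1 : IsPreconnected (jonesT {y} ∪ (minPts S ∩ jonesT {b, y} ∩ Lk {y})) :=
    isPreconnected_union_part hQL (isPreconnected_T_singleton y) ⟨y, mem_T_self y⟩ hCX
      (isOpen_Lk hl (hsing y)) (isOpen_Un {y}) (disjoint_Lk_Un _) hcov
  by_contra hcon
  have hqU : q ∈ Un {y} := (mem_Lk_or_Un (minPts_disjoint hl hq hqy)).resolve_left hcon
  -- `q` is linked with `b`
  have hqb : q ∈ Lk {b} := by
    refine linked_of_connected hl (hsing b) hC0 ?_ (Or.inl (mem_T_self y))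
      (Or.inr ⟨⟨hq, hqL⟩, hqU⟩) (pair_symm.1 hyb)
    rintro x (hx | hx)
    · rw [T_eq_of_mem hl hy hx]
      exact (pair_symm.1 hyb).1
    · apply minPts_disjoint hl hx.1.1
      intro hxb
      exact Set.disjoint_left.1 (disjoint_Lk_Un {y}) (T_subset_Lk hl (hsing y) hyb hxb) hx.2
  -- `y` is linked with `q`
  have hyq : y ∈ Lk {q} := by
    refine linked_of_connected hl (hsing q) hC1 ?_ (Or.inr ⟨⟨hb, hbL⟩, hyb⟩)
      (Or.inl (mem_T_self y)) (pair_symm.1 hqb)
    rintro x (hx | hx)
    · rw [T_eq_of_mem hl hy hx]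
      exact hqU.1.symm
    · apply minPts_disjoint hl hx.1.1
      intro hxq
      exact Set.disjoint_left.1 (disjoint_Lk_Un {y}) hx.2 (T_subset_Un hl (hsing y) hqU hxq)
  exact hcon (pair_symm.1 hyq)

theorem isPreconnected_minPts (hl : IsLsc S) : IsPreconnected (minPts S) := by
  have := isPreconnected_minPts_inter hl (X := univ) isPreconnected_univ isClosed_univ
    (fun x _ => subset_univ _)
  simpa using this

/-- (A4) -/
theorem linked_all (hl : IsLsc S) {r q x : S} (hr : r ∈ minPts S) (hq : q ∈ minPts S)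
    (hrq : q ∈ Lk {r}) (hx : x ∈ minPts S) (hxr : x ∉ jonesT {r}) : x ∈ Lk {r} := by
  have hsing : ∀ z : S, IsClosed ({z} : Set S) := fun z => isClosed_singleton
  have hcov : minPts S ⊆ jonesT {r} ∪ Un {r} ∪ Lk {r} := by
    intro z hzM
    by_cases hz : z ∈ jonesT {r}
    · exact Or.inl (Or.inl hz)
    · rcases mem_Lk_or_Un (minPts_disjoint hl hzM hz) with h | h
      · exact Or.inr h
      · exact Or.inl (Or.inr h)
  have hC0 : IsPreconnected (jonesT {r} ∪ (minPts S ∩ Un {r})) :=
    isPreconnected_union_part (isPreconnected_minPts hl) (isPreconnected_T_singleton r)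
      ⟨r, mem_T_self r⟩ (fun z hz => mem_minPts_of_mem hl hr hz)
      (isOpen_Un {r}) (isOpen_Lk hl (hsing r)) (disjoint_Lk_Un _).symm hcov
  by_contra hcon
  have hxU : x ∈ Un {r} := (mem_Lk_or_Un (minPts_disjoint hl hx hxr)).resolve_left hcon
  have hxq : x ∈ Lk {q} := by
    refine linked_of_connected hl (hsing q) hC0 ?_ (Or.inl (mem_T_self r))
      (Or.inr ⟨hx, hxU⟩) (pair_symm.1 hrq)
    rintro w (hw | hw)
    · rw [T_eq_of_mem hl hr hw]
      exact (pair_symm.1 hrq).1
    · apply minPts_disjoint hl hw.1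
      intro hwq
      exact Set.disjoint_left.1 (disjoint_Lk_Un {r}) (T_subset_Lk hl (hsing r) hrq hwq) hw.2
  have hL : IsPreconnected (jonesT {x, q}) := isPreconnected_of_linked hxq
  have hQ : IsPreconnected (minPts S ∩ jonesT {x, q}) :=
    isPreconnected_minPts_inter hl hL (isClosed_T _) (fun x hx => T_singleton_subset hl hx)
  have hmeet : r ∈ jonesT {x, q} := by
    by_contra hrL
    have hsub : minPts S ∩ jonesT {x, q} ⊆ Un {r} ∪ Lk {r} := by
      rintro z ⟨hzM, hzL⟩
      rcases hcov hzM with (h | h) | h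
      · exact absurd (T_singleton_subset hl hzL (hr z h)) hrL
      · exact Or.inl h
      · exact Or.inr h
    have h1 := hQ.subset_left_of_subset_union (isOpen_Un {r}) (isOpen_Lk hl (hsing r))
      (disjoint_Lk_Un _).symm hsub ⟨x, ⟨hx, subset_T _ (by simp)⟩, hxU⟩
    exact Set.disjoint_left.1 (disjoint_Lk_Un {r}) hrq (h1 ⟨hq, subset_T _ (by simp)⟩)
  have hrx : r ∉ jonesT {x} := fun h => hxr (hx r h)
  have := linked_step hl hx hq (pair_symm.1 hxq) hr (by rw [pair_comm]; exact hmeet) hrx
  exact hcon (pair_symm.1 this)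

/-- (A5) -/
theorem isPreconnected_pair (hl : IsLsc S) {r q : S} (hr : r ∈ minPts S) (hq : q ∈ minPts S)
    (hrq : q ∈ Lk {r}) (x : S) : IsPreconnected (jonesT {x, r}) := by
  by_cases hrx : r ∈ jonesT {x}
  · have : jonesT {x, r} = jonesT {x} := by
      apply subset_antisymm
      · apply T_subset_of_subset hl
        intro z hz
        rcases hz with rfl | hz
        · exact mem_T_self _
        · rw [mem_singleton_iff] at hz
          subst hz
          exact hrx
      · exact T_mono (by simp)
    rw [this]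
    exact isPreconnected_T_singleton x
  · have hd := minPts_disjoint hl hr hrx
    obtain ⟨x', hx', hx'M⟩ := exists_minPts hl x
    have hx'r : x' ∉ jonesT {r} := fun h => Set.disjoint_left.1 hd h hx'
    have h1 : x' ∈ Lk {r} := linked_all hl hr hq hrq hx'M hx'r
    have h2 : x ∈ Lk {r} := linked_of_connected hl isClosed_singleton
      (isPreconnected_T_singleton x)
      (fun z hz => (hd.mono_right (T_singleton_subset hl hz)).symm) hx' (mem_T_self x) h1
    exact isPreconnected_of_linked h2

/-- (A6) -/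
theorem notMem_T_of_disjoint (hl : IsLsc S) {r q : S} (hr : r ∈ minPts S) (hq : q ∈ minPts S)
    (hrq : q ∈ Lk {r}) {A : Set S} (hA : IsClosed A) (hd : Disjoint (jonesT {r}) A) :
    r ∉ jonesT A := by
  obtain ⟨N1, hN1, hrN1, hcl⟩ := normal_exists_closure_subset (isClosed_T {r}) hA.isOpen_compl
    (fun x hx h => Set.disjoint_left.1 hd hx h)
  set U : Set S := {x | jonesT (insert x {r}) ⊆ N1} with hU
  have hUo : IsOpen U := isOpen_usc {r} hN1
  have hrU : r ∈ U := by
    change jonesT (insert r {r}) ⊆ N1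
    simpa using hrN1
  set Y : Set S := ⋃₀ ((fun x => jonesT {x, r}) '' U) with hY
  have hYp : IsPreconnected Y := by
    apply isPreconnected_sUnion r
    · rintro _ ⟨x, -, rfl⟩
      exact subset_T _ (by simp)
    · rintro _ ⟨x, -, rfl⟩
      exact isPreconnected_pair hl hr hq hrq x
  have hUY : U ⊆ Y := fun x hx => ⟨jonesT {x, r}, ⟨x, hx, rfl⟩, subset_T _ (by simp)⟩
  have hYN : Y ⊆ N1 := by
    rintro z ⟨_, ⟨x, hx, rfl⟩, hz⟩
    exact hx hz
  refine notMem_T_iff.2 ⟨closure Y, isClosed_closure, ⟨⟨r, subset_closure (hUY hrU)⟩,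
    hYp.closure⟩, ?_, ?_⟩
  · exact mem_interior.2 ⟨U, hUY.trans subset_closure, hUo, hrU⟩
  · rw [eq_empty_iff_forall_notMem]
    rintro z ⟨hz, hzA⟩
    exact hcl (closure_mono hYN hz) hzA

/-- (A7) there is no linked pair in `minPts`. -/
theorem not_linked (hl : IsLsc S) {y b : S} (hy : y ∈ minPts S) (hb : b ∈ minPts S) : b ∉ Lk {y} := by
  intro hyb
  have hL : IsPreconnected (jonesT {b, y}) := isPreconnected_of_linked hyb
  have hQL : IsPreconnected (minPts S ∩ jonesT {b, y}) :=
    isPreconnected_minPts_inter hl hL (isClosed_T _) (fun x hx => T_singleton_subset hl hx)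
  have hyL : y ∈ jonesT {b, y} := subset_T _ (by simp)
  have hbL : b ∈ jonesT {b, y} := subset_T _ (by simp)
  have hex : ∃ q ∈ minPts S ∩ jonesT {b, y}, q ∉ jonesT {y} ∪ jonesT {b} := by
    by_contra hcon
    push Not at hcon
    have := isPreconnected_closed_iff.1 hQL (jonesT {y}) (jonesT {b}) (isClosed_T _) (isClosed_T _) hcon
      ⟨y, ⟨hy, hyL⟩, mem_T_self y⟩ ⟨b, ⟨hb, hbL⟩, mem_T_self b⟩
    obtain ⟨z, -, hz1, hz2⟩ := this
    exact Set.disjoint_left.1 hyb.1 hz2 hz1
  obtain ⟨q, ⟨hq, hqL⟩, hqn⟩ := hex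
  have hqy : q ∉ jonesT {y} := fun h => hqn (Or.inl h)
  have hqb : q ∉ jonesT {b} := fun h => hqn (Or.inr h)
  have h1 : q ∈ Lk {y} := linked_step hl hy hb hyb hq hqL hqy
  refine notMem_T_of_disjoint hl hq hy (pair_symm.1 h1) (A := {b, y}) ?_ ?_ hqL
  · exact (Set.toFinite _).isClosed
  · rw [Set.disjoint_right]
    intro z hz hzq
    rcases hz with rfl | hz
    · exact hqb (hq _ hzq)
    · rw [mem_singleton_iff] at hz
      subst hz
      exact hqy (hq _ hzq)

theorem T_pair (hl : IsLsc S) {y b : S} (hy : y ∈ minPts S) (hb : b ∈ minPts S)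
    (hd : Disjoint (jonesT {b}) (jonesT {y})) : jonesT {b, y} = jonesT {y} ∪ jonesT {b} := by
  by_contra hcon
  exact not_linked hl hy hb ⟨hd, hcon⟩

/-- (A8) -/
theorem T_finite (hl : IsLsc S) {B : Set S} (hB : B.Finite) (hBM : B ⊆ minPts S) :
    jonesT B = ⋃ b ∈ B, jonesT {b} := by
  induction B, hB using Set.Finite.induction_on with
  | empty => simp [T_empty]
  | @insert b B hb hBfin ih =>
    have hbM : b ∈ minPts S := hBM (mem_insert _ _)
    have hBM' : B ⊆ minPts S := (subset_insert _ _).trans hBM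
    have hK := ih hBM'
    have hBc : IsClosed B := hBfin.isClosed
    have hKM : jonesT B ⊆ minPts S := by
      intro z hz
      rw [hK] at hz
      simp only [mem_iUnion] at hz
      obtain ⟨b', hb', hzb'⟩ := hz
      exact mem_minPts_of_mem hl (hBM' hb') hzb'
    -- it suffices that `T (insert b B) = jonesT B ∪ jonesT {b}`
    have main : jonesT (insert b B) = jonesT B ∪ jonesT {b} := by
      by_cases hbK : b ∈ jonesT B
      · have h1 : jonesT (insert b B) ⊆ jonesT B := T_subset_of_subset hl (insert_subset hbK (subset_T B))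
        apply subset_antisymm (h1.trans subset_union_left)
        exact union_subset (T_mono (subset_insert _ _)) (T_mono (by simp))
      · by_contra hcon
        have hdb := minPts_disjoint hl hbM hbK
        have hbL : b ∈ Lk B := ⟨hdb, hcon⟩
        -- `B` is nonempty
        have hBne : B.Nonempty := by
          rw [nonempty_iff_ne_empty]
          rintro rfl
          apply hcon
          simp [T_empty]
        have hcovM : minPts S ⊆ Lk B ∪ (jonesT B ∪ Un B) := by
          intro z hz
          by_cases hzK : z ∈ jonesT B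
          · exact Or.inr (Or.inl hzK)
          · rcases mem_Lk_or_Un (minPts_disjoint hl hz hzK) with h | h
            · exact Or.inl h
            · exact Or.inr (Or.inr h)
        -- a point of `K` in the closure of the linked points
        have hz : ∃ z ∈ jonesT B, z ∈ closure (minPts S ∩ Lk B) := by
          by_contra hcz
          push Not at hcz
          have hO : IsOpen ((closure (minPts S ∩ Lk B))ᶜ ∪ Un B) :=
            isClosed_closure.isOpen_compl.union (isOpen_Un B)
          obtain ⟨k, hk⟩ := hBne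
          have hkT : k ∈ jonesT B := subset_T B hk
          obtain ⟨z, hzM, hz1, hz2⟩ := isPreconnected_minPts hl (Lk B)
            ((closure (minPts S ∩ Lk B))ᶜ ∪ Un B) (isOpen_Lk hl hBc) hO (by
              intro z hz
              rcases hcovM hz with h | h | h
              · exact Or.inl h
              · exact Or.inr (Or.inl (hcz z h))
              · exact Or.inr (Or.inr h)) ⟨b, hbM, hbL⟩ ⟨k, hBM' hk, Or.inl (hcz k hkT)⟩
          rcases hz2 with h | h
          · exact h (subset_closure ⟨hzM, hz1⟩)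
          · exact Set.disjoint_left.1 (disjoint_Lk_Un B) hz1 h
        obtain ⟨z, hzK, hzcl⟩ := hz
        have hzK' := hzK
        rw [hK] at hzK'
        simp only [mem_iUnion] at hzK'
        obtain ⟨b0, hb0, hzb0⟩ := hzK'
        have hb0M : b0 ∈ minPts S := hBM' hb0
        set K2 : Set S := ⋃ b' ∈ {b' ∈ B | b' ∉ jonesT {b0}}, jonesT {b'} with hK2
        have hK2c : IsClosed K2 :=
          (hBfin.subset (fun x hx => hx.1)).isClosed_biUnion fun x _ => isClosed_T _
        have hd : Disjoint (jonesT {b0}) K2 := by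
          rw [Set.disjoint_left]
          intro w hw hw2
          simp only [hK2, mem_iUnion] at hw2
          obtain ⟨b', ⟨hb'B, hb'⟩, hwb'⟩ := hw2
          have e1 := T_eq_of_mem hl hb0M hw
          have e2 := T_eq_of_mem hl (hBM' hb'B) hwb'
          apply hb'
          rw [← e1, e2]
          exact mem_T_self b'
        have hKsub : jonesT B ⊆ jonesT {b0} ∪ K2 := by
          intro w hw
          rw [hK] at hw
          simp only [mem_iUnion] at hw
          obtain ⟨b', hb', hwb'⟩ := hw
          by_cases hc : b' ∈ jonesT {b0}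
          · left
            exact T_singleton_subset hl hc hwb'
          · right
            simp only [hK2, mem_iUnion]
            exact ⟨b', ⟨hb', hc⟩, hwb'⟩
        obtain ⟨N1, N2, hN1, hN2, hN1s, hN2s, hN12⟩ := normal_separation (isClosed_T {b0}) hK2c hd
        have hU : IsOpen ({x | jonesT (insert x B) ⊆ N1 ∪ N2} ∩ N1) :=
          (isOpen_usc B (hN1.union hN2)).inter hN1
        have hzU : z ∈ {x | jonesT (insert x B) ⊆ N1 ∪ N2} ∩ N1 := by
          refine ⟨?_, hN1s hzb0⟩
          change jonesT (insert z B) ⊆ N1 ∪ N2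
          exact (T_subset_of_subset hl (insert_subset hzK (subset_T B))).trans
            (hKsub.trans (union_subset_union hN1s hN2s))
        obtain ⟨x, ⟨hx1, hxN1⟩, hxM, hxL⟩ := mem_closure_iff.1 hzcl _ hU hzU
        change jonesT (insert x B) ⊆ N1 ∪ N2 at hx1
        -- split `T (insert x B)`
        have hTc := isClosed_T (insert x B)
        have e : jonesT (insert x B) = (jonesT (insert x B) \ N2) ∪ (jonesT (insert x B) \ N1) := by
          ext w
          constructor
          · intro hw
            rcases hx1 hw with h | h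
            · exact Or.inl ⟨hw, fun h' => Set.disjoint_left.1 hN12 h h'⟩
            · exact Or.inr ⟨hw, fun h' => Set.disjoint_left.1 hN12 h' h⟩
          · rintro (h | h)
            · exact h.1
            · exact h.1
        have hd' : Disjoint (jonesT (insert x B) \ N2) (jonesT (insert x B) \ N1) := by
          rw [Set.disjoint_left]
          rintro w ⟨hw, hw2⟩ ⟨-, hw1⟩
          rcases hx1 hw with h | h
          · exact hw1 h
          · exact hw2 h
        have k1 : IsClosed (jonesT (insert x B) \ N2) := hTc.sdiff hN2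
        have k2 : IsClosed (jonesT (insert x B) \ N1) := hTc.sdiff hN1
        have l1 := T_inter_eq k1 k2 hd' e
        have l2 := T_inter_eq k2 k1 hd'.symm (by rw [union_comm]; exact e)
        have hxb0 : Disjoint (jonesT {x}) (jonesT {b0}) := by
          apply hxL.1.mono_right
          exact T_mono (by simpa using hb0)
        have m1 : jonesT (insert x B) \ N2 ⊆ jonesT B ∪ jonesT {x} := by
          rw [← l1]
          have : jonesT (insert x B ∩ (jonesT (insert x B) \ N2)) ⊆ jonesT {x, b0} := by
            apply T_subset_of_subset hl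
            rintro w ⟨hw, -, hw2⟩
            rcases hw with rfl | hw
            · exact subset_T _ (by simp)
            · have hwb0 : w ∈ jonesT {b0} := by
                rcases hKsub (subset_T B hw) with h | h
                · exact h
                · exact absurd (hN2s h) hw2
              exact T_mono (by simp) hwb0
          apply this.trans
          rw [T_pair hl hb0M hxM hxb0]
          exact union_subset_union_left _ (T_mono (by simpa using hb0))
        have m2 : jonesT (insert x B) \ N1 ⊆ jonesT B ∪ jonesT {x} := by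
          rw [← l2]
          apply Subset.trans _ subset_union_left
          apply T_mono
          rintro w ⟨hw, -, hw2⟩
          rcases hw with rfl | hw
          · exact absurd hxN1 hw2
          · exact hw
        apply hxL.2
        apply subset_antisymm
        · rw [e]
          exact union_subset m1 m2
        · exact union_subset (T_mono (subset_insert _ _)) (T_mono (by simp))
    rw [main, hK]
    ext w
    simp only [mem_union, mem_iUnion, mem_insert_iff]
    constructor
    · rintro (⟨b', hb', hw⟩ | hw)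
      · exact ⟨b', Or.inr hb', hw⟩
      · exact ⟨b, Or.inl rfl, hw⟩
    · rintro ⟨b', rfl | hb', hw⟩
      · exact Or.inr hw
      · exact Or.inl ⟨b', hb', hw⟩

/-- (A9) -/
theorem T_eq_self (hl : IsLsc S) {N : Set S} (hN : IsClosed N) (hNM : N ⊆ minPts S)
    (hNT : ∀ y ∈ N, jonesT {y} ⊆ N) : jonesT N = N := by
  apply subset_antisymm _ (subset_T N)
  by_contra hcon
  rw [not_subset] at hcon
  obtain ⟨q, hq, hqN⟩ := hcon
  obtain ⟨F, hF, hFN, hFT⟩ := finite_approx hl hN subset_closure hN.isOpen_compl ⟨q, hq, hqN⟩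
  obtain ⟨w, hw, hwN⟩ := hFT
  rw [T_finite hl hF (hFN.trans hNM)] at hw
  simp only [mem_iUnion] at hw
  obtain ⟨b, hb, hwb⟩ := hw
  exact hwN (hNT b (hFN hb) hwb)

/-- (C2) -/
theorem exists_far (hl : IsLsc S) {N : Set S} (hN : IsClosed N) (hNne : N.Nonempty)
    (hTN : jonesT N = N) {p : S} (hp : p ∉ N) (hU : (interior (jonesT {p})).Nonempty) :
    ∃ u ∈ interior (jonesT {p}), p ∉ jonesT (insert u N) := by
  by_contra hcon
  push Not at hcon
  set Z : Set S := {x | p ∈ jonesT (insert x N)} with hZ
  have hZc : IsClosed Z := by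
    rw [← isOpen_compl_iff]
    have : Zᶜ = {x | jonesT (insert x N) ⊆ ({p} : Set S)ᶜ} := by
      ext x
      simp [hZ]
    rw [this]
    exact isOpen_usc N isClosed_singleton.isOpen_compl
  have hZo : IsOpen Z := by
    have : Z = {x | (jonesT (insert x N) ∩ interior (jonesT {p})).Nonempty} := by
      ext x
      constructor
      · intro hx
        obtain ⟨u, hu⟩ := hU
        exact ⟨u, T_singleton_subset hl hx (interior_subset hu), hu⟩
      · rintro ⟨u, hu1, hu2⟩
        have h1 := hcon u hu2
        have h2 : jonesT (insert u N) ⊆ jonesT (insert x N) := by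
          apply T_subset_of_subset hl
          exact insert_subset hu1 ((subset_insert _ _).trans (subset_T _))
        exact h2 h1
    rw [this]
    exact isOpen_lsc hl hN isOpen_interior
  obtain ⟨u, hu⟩ := hU
  have huniv : Z = univ := IsClopen.eq_univ ⟨hZc, hZo⟩ ⟨u, hcon u hu⟩
  obtain ⟨x, hx⟩ := hNne
  have : x ∈ Z := huniv ▸ mem_univ x
  change p ∈ jonesT (insert x N) at this
  rw [insert_eq_of_mem hx, hTN] at this
  exact hp this

/-- (Z): under the hypothesis, `p` is a minimal point. -/
theorem mem_minPts_of_interior (hl : IsLsc S) {p : S} (hU : (interior (jonesT {p})).Nonempty) :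
    p ∈ minPts S := by
  by_contra hpM
  set N : Set S := minPts S ∩ jonesT {p} with hNdef
  have hN : IsClosed N := (isClosed_minPts hl).inter (isClosed_T _)
  have hNne : N.Nonempty := by
    obtain ⟨y, hy, hyM⟩ := exists_minPts hl p
    exact ⟨y, hyM, hy⟩
  have hNT : ∀ y ∈ N, jonesT {y} ⊆ N := fun y hy z hz =>
    ⟨mem_minPts_of_mem hl hy.1 hz, T_singleton_subset hl hy.2 hz⟩
  have hTN : jonesT N = N := T_eq_self hl hN inter_subset_left hNT
  have hpN : p ∉ N := fun h => hpM h.1
  obtain ⟨u, huU, hpu⟩ := exists_far hl hN hNne hTN hpN hU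
  obtain ⟨W, hW, hWc, hpW, hWN⟩ := notMem_T_iff.1 hpu
  have huW : u ∉ W := by
    intro h
    have : u ∈ W ∩ insert u N := ⟨h, mem_insert _ _⟩
    rw [hWN] at this
    exact this
  have hNW : ∀ x ∈ N, x ∉ W := by
    intro x hx h
    have : x ∈ W ∩ insert u N := ⟨h, mem_insert_of_mem _ hx⟩
    rw [hWN] at this
    exact this
  have hFc : IsClosed (interior W)ᶜ := isOpen_interior.isClosed_compl
  have hTF := T_compl_interior hl hW hWc
  have huF : u ∈ (interior W)ᶜ := fun h => huW (interior_subset h)
  set D : Set S := connectedComponentIn (interior W)ᶜ u with hD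
  have hDsub : D ⊆ (interior W)ᶜ := connectedComponentIn_subset _ _
  have hDc : IsClosed D := isClosed_connectedComponentIn hFc u
  have hDconn : IsConnected D := isConnected_connectedComponentIn_iff.2 huF
  have hex : ∃ u2 ∈ interior (jonesT {p}) \ W, u2 ∉ D := by
    by_contra hcon
    push Not at hcon
    have h1 : u ∈ interior D := by
      apply mem_interior.2 ⟨interior (jonesT {p}) \ W, hcon, isOpen_interior.sdiff hW, huU, huW⟩
    have h2 : Disjoint ({p} : Set S) (interior D) := by
      rw [Set.disjoint_singleton_left]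
      intro h
      exact hDsub (interior_subset h) hpW
    have h3 := T_disjoint_interior' hl isClosed_singleton hDc hDconn h2
    exact Set.disjoint_left.1 h3 (interior_subset huU) h1
  obtain ⟨u2, ⟨hu2U, hu2W⟩, hu2D⟩ := hex
  obtain ⟨G, G', hG, hG', hGG', hdis, huG, hGu2⟩ := exists_sep hFc
    (isClosed_singleton (x := u2)) huF (Set.disjoint_singleton_right.2 hu2D)
  have hu2F : u2 ∈ (interior W)ᶜ := fun h => hu2W (interior_subset h)
  have hu2G' : u2 ∈ G' := by
    have : u2 ∈ G ∪ G' := hGG' ▸ hu2F
    rcases this with h | h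
    · exact absurd rfl (Set.disjoint_left.1 hGu2 h)
    · exact h
  have hTGG : jonesT (G ∪ G') = G ∪ G' := by rw [hGG']; exact hTF
  have hTG : jonesT G = G := by
    have := T_inter_eq hG hG' hdis hTGG
    rwa [union_inter_cancel_left] at this
  have hTG' : jonesT G' = G' := by
    have := T_inter_eq hG' hG hdis.symm (A := G ∪ G') (by rw [union_comm G' G]; exact hTGG)
    rwa [union_inter_cancel_right] at this
  refine not_meets_both hl (isPreconnected_T_singleton p) hG hG' hdis ?_ ?_ ?_
    ⟨u, interior_subset huU, huG⟩ ⟨u2, interior_subset hu2U, hu2G'⟩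
  · intro x hx y hy hyM
    rw [hGG']
    intro hyW
    exact hNW y ⟨hyM, T_singleton_subset hl hx hy⟩ (interior_subset hyW)
  · intro y hy
    calc jonesT {y} ⊆ jonesT G := T_mono (by simpa using hy)
      _ = G := hTG
  · intro y hy
    calc jonesT {y} ⊆ jonesT G' := T_mono (by simpa using hy)
      _ = G' := hTG'

/-- (M5) -/
theorem subset_all (hl : IsLsc S) {p : S} (hU : (interior (jonesT {p})).Nonempty) (x : S) :
    interior (jonesT {p}) ⊆ jonesT {x} := by
  have hp := mem_minPts_of_interior hl hU
  set Z : Set S := {x | p ∈ jonesT {x}} with hZ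
  have hZc : IsClosed Z := by
    rw [← isOpen_compl_iff]
    have : Zᶜ = {x | jonesT {x} ⊆ ({p} : Set S)ᶜ} := by
      ext x
      simp [hZ]
    rw [this]
    exact isOpen_usc_singleton isClosed_singleton.isOpen_compl
  have hZo : IsOpen Z := by
    have : Z = {x | (jonesT {x} ∩ interior (jonesT {p})).Nonempty} := by
      ext x
      constructor
      · intro hx
        obtain ⟨u, hu⟩ := hU
        exact ⟨u, T_singleton_subset hl hx (interior_subset hu), hu⟩
      · rintro ⟨u, hu1, hu2⟩
        exact T_singleton_subset hl hu1 (hp u (interior_subset hu2))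
    rw [this]
    exact isOpen_lsc_singleton hl isOpen_interior
  have huniv : Z = univ := IsClopen.eq_univ ⟨hZc, hZo⟩ ⟨p, mem_T_self p⟩
  have hx : x ∈ Z := huniv ▸ mem_univ x
  exact interior_subset.trans (T_singleton_subset hl hx)

theorem continuum_eq_univ (hl : IsLsc S) {p : S} {W : Set S} (hW : IsClosed W)
    (hWc : IsConnected W) (h : (interior W ∩ interior (jonesT {p})).Nonempty) : W = univ := by
  by_contra hcon
  obtain ⟨x, hx⟩ := (ne_univ_iff_exists_notMem W).1 hcon
  obtain ⟨u, huW, hup⟩ := h
  have h1 : Disjoint (jonesT {x}) (interior W) := by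
    apply T_disjoint_interior hW hWc
    rw [eq_empty_iff_forall_notMem]
    rintro z ⟨hz, rfl⟩
    exact hx hz
  exact Set.disjoint_left.1 h1 (subset_all hl ⟨u, hup⟩ x hup) huW

theorem indecomposable_of_lsc (hl : IsLsc S) {p : S} (hU : (interior (jonesT {p})).Nonempty)
    {K L : Set S} (hK : IsClosed K) (hKc : IsConnected K) (hL : IsClosed L)
    (hLc : IsConnected L) (hKL : K ∪ L = univ) : K = univ ∨ L = univ := by
  by_cases h : interior (jonesT {p}) ⊆ K
  · left
    apply continuum_eq_univ hl hK hKc (p := p)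
    obtain ⟨u, hu⟩ := hU
    exact ⟨u, interior_maximal h isOpen_interior hu, hu⟩
  · right
    rw [not_subset] at h
    obtain ⟨u, hu, huK⟩ := h
    apply continuum_eq_univ hl hL hLc (p := p)
    refine ⟨u, ?_, hu⟩
    apply mem_interior.2 ⟨Kᶜ, ?_, hK.isOpen_compl, huK⟩
    intro z hz
    have : z ∈ K ∪ L := hKL ▸ mem_univ z
    exact this.resolve_left hz

end Pool.Agent.N485.TC
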