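import Pool.Agent.N485.TC.Basic

set_option linter.unusedSectionVars false

open Set Topology TopologicalSpace

namespace Pool.Agent.N485.TC


/-- Lower semicontinuity of `T` in terms of basic Vietoris open sets. -/
def IsLsc (S : Type*) [TopologicalSpace S] : Prop :=
  ∀ A : Set S, IsClosed A → ∀ V : Set S, IsOpen V → (jonesT A ∩ V).Nonempty →
    ∃ 𝒰 : Set (Set S), 𝒰.Finite ∧ (∀ U ∈ 𝒰, IsOpen U) ∧ A ⊆ ⋃₀ 𝒰 ∧
      (∀ U ∈ 𝒰, (A ∩ U).Nonempty) ∧
      ∀ B, IsClosed B → B ⊆ ⋃₀ 𝒰 → (∀ U ∈ 𝒰, (B ∩ U).Nonempty) → (jonesT B ∩ V).Nonempty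

variable {S : Type*} [TopologicalSpace S] [CompactSpace S] [T2Space S] [ConnectedSpace S]

/-- The set of `x` such that `T (B ∪ {x})` meets the open set `V` is open. -/
theorem isOpen_lsc (hl : IsLsc S) {B : Set S} (hB : IsClosed B) {V : Set S} (hV : IsOpen V) :
    IsOpen {x | (jonesT (insert x B) ∩ V).Nonempty} := by
  rw [isOpen_iff_mem_nhds]
  intro x hx
  have hxB : IsClosed (insert x B) := by
    rw [insert_eq]; exact isClosed_singleton.union hB
  obtain ⟨𝒰, hfin, hopen, hsub, hmeet, h⟩ := hl (insert x B) hxB V hV hx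
  have hO : IsOpen (⋂ U ∈ {U ∈ 𝒰 | x ∈ U}, U) :=
    (hfin.subset (fun U hU => hU.1)).isOpen_biInter fun U hU => hopen U hU.1
  have hxO : x ∈ ⋂ U ∈ {U ∈ 𝒰 | x ∈ U}, U := by
    rw [mem_iInter₂]
    intro U hU
    exact hU.2
  filter_upwards [hO.mem_nhds hxO] with y hy
  rw [mem_iInter₂] at hy
  apply h
  · rw [insert_eq]; exact isClosed_singleton.union hB
  · apply insert_subset _ ((subset_insert x B).trans hsub)
    obtain ⟨U, hU, hxU⟩ := hsub (mem_insert x B)
    exact ⟨U, hU, hy U ⟨hU, hxU⟩⟩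
  · intro U hU
    obtain ⟨a, ha, haU⟩ := hmeet U hU
    rcases ha with rfl | ha
    · exact ⟨y, mem_insert _ _, hy U ⟨hU, haU⟩⟩
    · exact ⟨a, mem_insert_of_mem _ ha, haU⟩

theorem isOpen_lsc_singleton (hl : IsLsc S) {V : Set S} (hV : IsOpen V) :
    IsOpen {x | (jonesT {x} ∩ V).Nonempty} := by
  have := isOpen_lsc hl (isClosed_empty) hV
  simpa using this

/-- Finite approximation. -/
theorem finite_approx (hl : IsLsc S) {A P V : Set S} (hA : IsClosed A) (hP : A ⊆ closure P)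
    (hV : IsOpen V) (h : (jonesT A ∩ V).Nonempty) :
    ∃ F : Set S, F.Finite ∧ F ⊆ P ∧ (jonesT F ∩ V).Nonempty := by
  obtain ⟨𝒰, hfin, hopen, hsub, hmeet, hB⟩ := hl A hA V hV h
  have hex : ∀ U : 𝒰, ∃ b, b ∈ (U : Set S) ∧ b ∈ P := by
    rintro ⟨U, hU⟩
    obtain ⟨a, ha, haU⟩ := hmeet U hU
    exact mem_closure_iff.1 (hP ha) U (hopen U hU) haU
  choose b hbU hbP using hex
  have hfin' : Finite 𝒰 := hfin.to_subtype
  refine ⟨range b, finite_range b, ?_, ?_⟩
  · rintro _ ⟨U, rfl⟩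
    exact hbP U
  · apply hB
    · exact (finite_range b).isClosed
    · rintro _ ⟨U, rfl⟩
      exact ⟨U, U.2, hbU U⟩
    · intro U hU
      exact ⟨b ⟨U, hU⟩, mem_range_self _, hbU ⟨U, hU⟩⟩

/-- (F1) -/
theorem T_disjoint_interior' (hl : IsLsc S) {A W : Set S} (hA : IsClosed A) (hW : IsClosed W)
    (hWc : IsConnected W) (h : Disjoint A (interior W)) : Disjoint (jonesT A) (interior W) := by
  by_contra hcon
  rw [disjoint_iff_inter_eq_empty, ← ne_eq, ← nonempty_iff_ne_empty] at hcon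
  obtain ⟨F, -, hFW, hFT⟩ := finite_approx hl hA (P := Wᶜ) (by
    rw [closure_compl]
    exact fun a ha haW => Set.disjoint_left.1 h ha haW) isOpen_interior hcon
  have : Disjoint (jonesT F) (interior W) := by
    apply T_disjoint_interior hW hWc
    rw [eq_empty_iff_forall_notMem]
    rintro x ⟨hxW, hxF⟩
    exact hFW hxF hxW
  rw [disjoint_iff_inter_eq_empty] at this
  rw [this] at hFT
  exact not_nonempty_empty hFT

/-- (F2) `T` is idempotent on closed sets. -/
theorem T_T (hl : IsLsc S) (A : Set S) : jonesT (jonesT A) = jonesT A := by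
  apply subset_antisymm _ (subset_T _)
  intro p hp
  by_contra hpA
  obtain ⟨W, hW, hWc, hpW, hWA⟩ := notMem_T_iff.1 hpA
  have h1 := T_disjoint_interior hW hWc hWA
  have h2 := T_disjoint_interior' hl (isClosed_T A) hW hWc h1
  exact Set.disjoint_left.1 h2 hp hpW

theorem T_subset_of_subset (hl : IsLsc S) {A B : Set S} (h : B ⊆ jonesT A) : jonesT B ⊆ jonesT A := by
  rw [← T_T hl A]
  exact T_mono h

theorem T_singleton_subset (hl : IsLsc S) {A : Set S} {z : S} (h : z ∈ jonesT A) : jonesT {z} ⊆ jonesT A :=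
  T_subset_of_subset hl (by simpa using h)

theorem mem_T_self (x : S) : x ∈ jonesT {x} := subset_T {x} rfl

/-- complements of interiors of continua are `T`-closed -/
theorem T_compl_interior (hl : IsLsc S) {W : Set S} (hW : IsClosed W) (hWc : IsConnected W) :
    jonesT (interior W)ᶜ = (interior W)ᶜ := by
  apply subset_antisymm _ (subset_T _)
  have := T_disjoint_interior' hl isOpen_interior.isClosed_compl hW hWc disjoint_compl_left
  exact fun x hx hxW => Set.disjoint_left.1 this hx hxW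

/-- `T {x}` is connected. -/
theorem isPreconnected_T_singleton (x : S) : IsPreconnected (jonesT {x}) := by
  rw [isPreconnected_iff_subset_of_fully_disjoint_closed (isClosed_T _)]
  intro u v hu hv huv hdis
  have hTu : jonesT {x} = (jonesT {x} ∩ u) ∪ (jonesT {x} ∩ v) := by
    rw [← inter_union_distrib_left]
    exact (inter_eq_left.2 huv).symm
  have hd : Disjoint (jonesT {x} ∩ u) (jonesT {x} ∩ v) := hdis.mono inter_subset_right inter_subset_right
  have key : ∀ u v : Set S, IsClosed u → IsClosed v → Disjoint (jonesT {x} ∩ u) (jonesT {x} ∩ v) →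
      jonesT {x} = (jonesT {x} ∩ u) ∪ (jonesT {x} ∩ v) → x ∈ u → jonesT {x} ⊆ u := by
    intro u v hu hv hd hTu hx
    have h1 := T_inter_eq ((isClosed_T {x}).inter hv) ((isClosed_T {x}).inter hu) hd.symm
      (by rw [union_comm]; exact hTu)
    have h2 : ({x} : Set S) ∩ (jonesT {x} ∩ v) = ∅ := by
      rw [eq_empty_iff_forall_notMem]
      rintro y ⟨rfl, hy⟩
      exact Set.disjoint_left.1 hd ⟨mem_T_self _, hx⟩ hy
    rw [h2, T_empty] at h1
    rw [hTu, ← h1, union_empty]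
    exact inter_subset_right
  rcases huv (mem_T_self x) with h | h
  · exact Or.inl (key u v hu hv hd hTu h)
  · refine Or.inr (key v u hv hu hd.symm ?_ h)
    rw [union_comm]; exact hTu

/-- `T {y, b}` is connected unless it is the disjoint union of `T {y}` and `T {b}`. -/
theorem isPreconnected_T_pair {y b : S} (h : jonesT {y, b} ≠ jonesT {b} ∪ jonesT {y}) :
    IsPreconnected (jonesT {y, b}) := by
  rw [isPreconnected_iff_subset_of_fully_disjoint_closed (isClosed_T _)]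
  intro u v hu hv huv hdis
  by_contra hcon
  push Not at hcon
  obtain ⟨hcu, hcv⟩ := hcon
  have hTu : jonesT {y, b} = (jonesT {y, b} ∩ u) ∪ (jonesT {y, b} ∩ v) := by
    rw [← inter_union_distrib_left]
    exact (inter_eq_left.2 huv).symm
  have hd : Disjoint (jonesT {y, b} ∩ u) (jonesT {y, b} ∩ v) :=
    hdis.mono inter_subset_right inter_subset_right
  have h1 := T_inter_eq ((isClosed_T {y, b}).inter hu) ((isClosed_T {y, b}).inter hv) hd hTu
  have h2 := T_inter_eq ((isClosed_T {y, b}).inter hv) ((isClosed_T {y, b}).inter hu) hd.symm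
    (by rw [union_comm]; exact hTu)
  have hyT : y ∈ jonesT {y, b} := subset_T _ (by simp)
  have hbT : b ∈ jonesT {y, b} := subset_T _ (by simp)
  have nv : ∀ z, z ∈ u → z ∉ v := fun z h1 h2 => Set.disjoint_left.1 hdis h1 h2
  rcases huv hyT with hy | hy <;> rcases huv hbT with hb | hb
  · -- both in `u`
    have : ({y, b} : Set S) ∩ (jonesT {y, b} ∩ v) = ∅ := by
      rw [eq_empty_iff_forall_notMem]
      rintro z ⟨hz, -, hzv⟩
      rcases hz with rfl | hz
      · exact nv _ hy hzv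
      · rw [mem_singleton_iff] at hz
        subst hz
        exact nv _ hb hzv
    rw [this, T_empty] at h2
    apply hcu
    rw [hTu, ← h2, union_empty]
    exact inter_subset_right
  · have e1 : ({y, b} : Set S) ∩ (jonesT {y, b} ∩ u) = {y} := by
      ext z
      constructor
      · rintro ⟨hz, -, hzu⟩
        rcases hz with rfl | hz
        · rfl
        · rw [mem_singleton_iff] at hz
          subst hz
          exact absurd hb (nv _ hzu)
      · rintro rfl
        exact ⟨by simp, hyT, hy⟩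
    have e2 : ({y, b} : Set S) ∩ (jonesT {y, b} ∩ v) = {b} := by
      ext z
      constructor
      · rintro ⟨hz, -, hzv⟩
        rcases hz with rfl | hz
        · exact absurd hzv (nv _ hy)
        · exact hz
      · rintro rfl
        exact ⟨by simp, hbT, hb⟩
    rw [e1] at h1
    rw [e2] at h2
    apply h
    rw [h1, h2, union_comm]
    exact hTu
  · have e1 : ({y, b} : Set S) ∩ (jonesT {y, b} ∩ u) = {b} := by
      ext z
      constructor
      · rintro ⟨hz, -, hzu⟩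
        rcases hz with rfl | hz
        · exact absurd hy (nv _ hzu)
        · exact hz
      · rintro rfl
        exact ⟨by simp, hbT, hb⟩
    have e2 : ({y, b} : Set S) ∩ (jonesT {y, b} ∩ v) = {y} := by
      ext z
      constructor
      · rintro ⟨hz, -, hzv⟩
        rcases hz with rfl | hz
        · rfl
        · rw [mem_singleton_iff] at hz
          subst hz
          exact absurd hzv (nv _ hb)
      · rintro rfl
        exact ⟨by simp, hyT, hy⟩
    rw [e1] at h1
    rw [e2] at h2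
    apply h
    rw [h1, h2]
    exact hTu
  · -- both in `v`
    have : ({y, b} : Set S) ∩ (jonesT {y, b} ∩ u) = ∅ := by
      rw [eq_empty_iff_forall_notMem]
      rintro z ⟨hz, -, hzu⟩
      rcases hz with rfl | hz
      · exact nv _ hzu hy
      · rw [mem_singleton_iff] at hz
        subst hz
        exact nv _ hzu hb
    rw [this, T_empty] at h1
    apply hcv
    rw [hTu, ← h1, empty_union]
    exact inter_subset_right

/-! ### Minimal points -/

/-- The set of points `y` with `T {y}` minimal. -/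
def minPts (S : Type*) [TopologicalSpace S] : Set S := {y | ∀ z ∈ jonesT {y}, y ∈ jonesT {z}}


omit [CompactSpace S] [T2Space S] [ConnectedSpace S] in
theorem mem_minPts {y : S} : y ∈ minPts S ↔ ∀ z ∈ jonesT {y}, y ∈ jonesT {z} := Iff.rfl

theorem T_eq_of_mem (hl : IsLsc S) {y z : S} (hy : y ∈ minPts S) (hz : z ∈ jonesT {y}) :
    jonesT {z} = jonesT {y} :=
  subset_antisymm (T_singleton_subset hl hz) (T_singleton_subset hl (hy z hz))

theorem mem_minPts_of_mem (hl : IsLsc S) {y z : S} (hy : y ∈ minPts S) (hz : z ∈ jonesT {y}) :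
    z ∈ minPts S := by
  intro w hw
  have h1 := T_eq_of_mem hl hy hz
  rw [h1] at hw
  rw [T_eq_of_mem hl hy hw]
  exact hz

/-- If `t x` and `t y` meet, `y` minimal, then `y ∈ jonesT {x}`. -/
theorem mem_of_inter (hl : IsLsc S) {y : S} {A : Set S} (hy : y ∈ minPts S)
    (h : (jonesT {y} ∩ jonesT A).Nonempty) : y ∈ jonesT A := by
  obtain ⟨w, hw1, hw2⟩ := h
  exact T_singleton_subset hl hw2 (hy w hw1)

/-- (M0) -/
theorem exists_minPts (hl : IsLsc S) (x : S) : ∃ y ∈ jonesT {x}, y ∈ minPts S := by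
  obtain ⟨m, hmx, hmin⟩ := zorn_superset_nonempty {K : Set S | ∃ z ∈ jonesT {x}, K = jonesT {z}} (by
    intro c hc hchain hne
    have hw : (⋂₀ c).Nonempty := by
      have hcne : Nonempty c := hne.to_subtype
      apply IsCompact.nonempty_sInter_of_directed_nonempty_isCompact_isClosed
      · exact IsChain.directedOn (r := fun a b : Set S => b ⊆ a) hchain.symm
      · intro K hK
        obtain ⟨z, -, rfl⟩ := hc hK
        exact ⟨z, mem_T_self z⟩
      · intro K hK
        obtain ⟨z, -, rfl⟩ := hc hK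
        exact (isClosed_T _).isCompact
      · intro K hK
        obtain ⟨z, -, rfl⟩ := hc hK
        exact isClosed_T _
    obtain ⟨w, hw⟩ := hw
    rw [mem_sInter] at hw
    obtain ⟨K, hK⟩ := hne
    refine ⟨jonesT {w}, ⟨w, ?_, rfl⟩, ?_⟩
    · obtain ⟨z, hz, hKz⟩ := hc hK
      exact T_singleton_subset hl hz (hKz ▸ hw K hK)
    · intro K' hK'
      obtain ⟨z, hz, hKz⟩ := hc hK'
      rw [hKz]
      exact T_singleton_subset hl (hKz ▸ hw K' hK')) (jonesT {x}) ⟨x, mem_T_self x, rfl⟩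
  obtain ⟨y, hy, rfl⟩ := hmin.1
  refine ⟨y, hy, fun z hz => ?_⟩
  have h1 : jonesT {z} ⊆ jonesT {y} := T_singleton_subset hl hz
  have h2 : jonesT {y} ⊆ jonesT {z} := hmin.2 ⟨z, T_singleton_subset hl hy hz, rfl⟩ h1
  exact h2 (mem_T_self y)

/-- (M1) -/
theorem isClosed_minPts (hl : IsLsc S) : IsClosed (minPts S) := by
  rw [← closure_subset_iff_isClosed]
  intro y hy z hz
  by_contra hcon
  obtain ⟨W, hW, hWc, hyW, hWz⟩ := notMem_T_iff.1 hcon
  have hzW : z ∈ Wᶜ := by
    intro h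
    have : z ∈ W ∩ {z} := ⟨h, rfl⟩
    rw [hWz] at this
    exact this
  have h1 : IsOpen {x | (jonesT {x} ∩ Wᶜ).Nonempty} := isOpen_lsc_singleton hl hW.isOpen_compl
  have h2 : IsOpen ({x | (jonesT {x} ∩ Wᶜ).Nonempty} ∩ interior W) := h1.inter isOpen_interior
  obtain ⟨y', ⟨⟨z', hz', hz'W⟩, hy'W⟩, hy'M⟩ := mem_closure_iff.1 hy _ h2
    ⟨⟨z, hz, hzW⟩, hyW⟩
  refine notMem_T_iff.2 ⟨W, hW, hWc, hy'W, ?_⟩ (hy'M z' hz')
  rw [eq_empty_iff_forall_notMem]
  rintro w ⟨hw, rfl⟩
  exact hz'W hw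

/-- (M2) -/
theorem nhds_minPts (hl : IsLsc S) {B V : Set S} (hB : IsClosed B) (hV : IsOpen V) {x y : S}
    (hy : y ∈ jonesT (insert x B)) (hyV : jonesT {y} ⊆ V) :
    ∃ O, IsOpen O ∧ x ∈ O ∧ ∀ x' ∈ O, ∃ y' ∈ jonesT (insert x' B), y' ∈ minPts S ∧ jonesT {y'} ⊆ V := by
  refine ⟨_, isOpen_lsc hl hB (isOpen_usc_singleton hV), ⟨y, hy, hyV⟩, ?_⟩
  rintro x' ⟨w, hw, hwV⟩
  obtain ⟨y', hy', hy'M⟩ := exists_minPts hl w
  exact ⟨y', T_singleton_subset hl hw hy', hy'M, (T_singleton_subset hl hy').trans hwV⟩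

/-- (M3)/(M4) -/
theorem not_meets_both (hl : IsLsc S) {X G G' : Set S} (hX : IsPreconnected X)
    (hG : IsClosed G) (hG' : IsClosed G') (hdis : Disjoint G G')
    (hXM : ∀ x ∈ X, ∀ y ∈ jonesT {x}, y ∈ minPts S → y ∈ G ∪ G')
    (hTG : ∀ y ∈ G, jonesT {y} ⊆ G) (hTG' : ∀ y ∈ G', jonesT {y} ⊆ G')
    (h : (X ∩ G).Nonempty) (h' : (X ∩ G').Nonempty) : False := by
  obtain ⟨V1, V2, hV1, hV2, hGV1, hGV2, hV12⟩ := normal_separation hG hG' hdis
  have hO1 : IsOpen {x | jonesT {x} ⊆ (minPts S ∩ G')ᶜ} :=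
    isOpen_usc_singleton ((isClosed_minPts hl).inter hG').isOpen_compl
  have hO2 : IsOpen {x | (jonesT {x} ∩ {w | jonesT {w} ⊆ V2}).Nonempty} :=
    isOpen_lsc_singleton hl (isOpen_usc_singleton hV2)
  have c1 : X ⊆ {x | jonesT {x} ⊆ (minPts S ∩ G')ᶜ} ∪ {x | (jonesT {x} ∩ {w | jonesT {w} ⊆ V2}).Nonempty} := by
    intro x hx
    by_cases hc : jonesT {x} ⊆ (minPts S ∩ G')ᶜ
    · exact Or.inl hc
    · right
      rw [not_subset] at hc
      obtain ⟨y, hy, hy'⟩ := hc
      rw [mem_compl_iff, not_not] at hy'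
      exact ⟨y, hy, (hTG' y hy'.2).trans hGV2⟩
  have c2 : (X ∩ {x | jonesT {x} ⊆ (minPts S ∩ G')ᶜ}).Nonempty := by
    obtain ⟨x, hxX, hxG⟩ := h
    exact ⟨x, hxX, fun y hy hy' => Set.disjoint_left.1 hdis (hTG x hxG hy) hy'.2⟩
  have c3 : (X ∩ {x | (jonesT {x} ∩ {w | jonesT {w} ⊆ V2}).Nonempty}).Nonempty := by
    obtain ⟨x, hxX, hxG⟩ := h'
    exact ⟨x, hxX, x, mem_T_self x, (hTG' x hxG).trans hGV2⟩
  obtain ⟨x, hxX, hx1, hx2⟩ := hX _ _ hO1 hO2 c1 c2 c3
  obtain ⟨w, hwx, hw⟩ := hx2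
  obtain ⟨y, hy, hyM⟩ := exists_minPts hl w
  have hyx : y ∈ jonesT {x} := T_singleton_subset hl hwx hy
  rcases hXM x hxX y hyx hyM with hyG | hyG
  · exact Set.disjoint_left.1 hV12 (hGV1 hyG) (hw hy)
  · exact hx1 hyx ⟨hyM, hyG⟩

/-- (M4) -/
theorem isPreconnected_minPts_inter (hl : IsLsc S) {X : Set S} (hX : IsPreconnected X)
    (hXc : IsClosed X) (hT : ∀ x ∈ X, jonesT {x} ⊆ X) : IsPreconnected (minPts S ∩ X) := by
  rw [isPreconnected_closed_iff]
  intro u v hu hv huv hne hne'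
  by_contra hcon
  rw [not_nonempty_iff_eq_empty] at hcon
  have hcl := (isClosed_minPts hl).inter hXc
  have hd : Disjoint (minPts S ∩ X ∩ u) (minPts S ∩ X ∩ v) := by
    rw [Set.disjoint_left]
    rintro x ⟨h1, h2⟩ ⟨-, h3⟩
    have : x ∈ minPts S ∩ X ∩ (u ∩ v) := ⟨h1, h2, h3⟩
    rw [hcon] at this
    exact this
  have key : ∀ u v : Set S, IsClosed u → IsClosed v → minPts S ∩ X ⊆ u ∪ v →
      Disjoint (minPts S ∩ X ∩ u) (minPts S ∩ X ∩ v) → ∀ y ∈ minPts S ∩ X ∩ u, jonesT {y} ⊆ minPts S ∩ X ∩ u := by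
    intro u v hu hv huv hd y hy
    have h1 : jonesT {y} ⊆ minPts S ∩ X := fun z hz =>
      ⟨mem_minPts_of_mem hl hy.1.1 hz, hT y hy.1.2 hz⟩
    have h2 := isPreconnected_iff_subset_of_disjoint_closed.1 (isPreconnected_T_singleton y) u v
      hu hv (h1.trans huv) (by
        rw [eq_empty_iff_forall_notMem]
        rintro z ⟨hz, hzu, hzv⟩
        exact Set.disjoint_left.1 hd ⟨h1 hz, hzu⟩ ⟨h1 hz, hzv⟩)
    rcases h2 with h2 | h2
    · exact fun z hz => ⟨h1 hz, h2 hz⟩
    · exact absurd ⟨hy.1, h2 (mem_T_self y)⟩ (Set.disjoint_left.1 hd hy)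
  refine not_meets_both hl hX (hcl.inter hu) (hcl.inter hv) hd ?_ (key u v hu hv huv hd)
    (key v u hv hu (by rw [union_comm]; exact huv) hd.symm) ?_ ?_
  · intro x hx y hy hyM
    have hyX : y ∈ minPts S ∩ X := ⟨hyM, hT x hx hy⟩
    rcases huv hyX with h | h
    · exact Or.inl ⟨hyX, h⟩
    · exact Or.inr ⟨hyX, h⟩
  · obtain ⟨x, hx, hxu⟩ := hne
    exact ⟨x, hx.2, hx, hxu⟩
  · obtain ⟨x, hx, hxu⟩ := hne'
    exact ⟨x, hx.2, hx, hxu⟩

/-- A standard fact on connected sets: if `X` is connected, `C ⊆ X` is connected nonempty and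
`X \ C` splits into two relatively open parts, then `C` together with one part is connected. -/
theorem isPreconnected_union_part {X C O1 O2 : Set S} (hX : IsPreconnected X)
    (hC : IsPreconnected C) (hCne : C.Nonempty) (hCX : C ⊆ X) (hO1 : IsOpen O1) (hO2 : IsOpen O2)
    (hdis : Disjoint O1 O2)
    (hcov : X ⊆ C ∪ O1 ∪ O2) : IsPreconnected (C ∪ (X ∩ O1)) := by
  rw [isPreconnected_iff_subset_of_disjoint_closed]
  intro u v hu hv huv hd
  have key : ∀ u v : Set S, IsClosed u → IsClosed v → C ∪ (X ∩ O1) ⊆ u ∪ v →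
      (C ∪ (X ∩ O1)) ∩ (u ∩ v) = ∅ → C ⊆ u → C ∪ (X ∩ O1) ⊆ u := by
    intro u v hu hv huv hd hCu
    by_contra hcon
    rw [not_subset] at hcon
    obtain ⟨y, hy, hyu⟩ := hcon
    have hyX : y ∈ X ∩ O1 := hy.resolve_left fun h => hyu (hCu h)
    have hd' : ∀ z ∈ C ∪ (X ∩ O1), z ∈ u → z ∉ v := by
      intro z hz h1 h2
      have : z ∈ (C ∪ (X ∩ O1)) ∩ (u ∩ v) := ⟨hz, h1, h2⟩
      rw [hd] at this
      exact this
    have c1 : X ⊆ (O1 ∩ uᶜ) ∪ (O2 ∪ vᶜ) := by
      intro x hx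
      rcases hcov hx with (h | h) | h
      · exact Or.inr (Or.inr (hd' x (Or.inl h) (hCu h)))
      · by_cases hxu : x ∈ u
        · exact Or.inr (Or.inr (hd' x (Or.inr ⟨hx, h⟩) hxu))
        · exact Or.inl ⟨h, hxu⟩
      · exact Or.inr (Or.inl h)
    have c2 : (X ∩ (O2 ∪ vᶜ)).Nonempty := by
      obtain ⟨c, hc⟩ := hCne
      exact ⟨c, hCX hc, Or.inr (hd' c (Or.inl hc) (hCu hc))⟩
    obtain ⟨z, hzX, ⟨hz1, hzu⟩, hz2⟩ := hX (O1 ∩ uᶜ) (O2 ∪ vᶜ) (hO1.inter hu.isOpen_compl)
      (hO2.union hv.isOpen_compl) c1 ⟨y, hyX.1, hyX.2, hyu⟩ c2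
    rcases hz2 with h | h
    · exact Set.disjoint_left.1 hdis hz1 h
    · rcases huv (Or.inr ⟨hzX, hz1⟩) with h' | h'
      · exact hzu h'
      · exact h h'
  have hCuv := isPreconnected_iff_subset_of_disjoint_closed.1 hC u v hu hv
    (subset_union_left.trans huv) (by
      apply subset_empty_iff.1
      rw [← hd]
      exact inter_subset_inter_left _ subset_union_left)
  rcases hCuv with h | h
  · exact Or.inl (key u v hu hv huv hd h)
  · exact Or.inr (key v u hv hu (by rw [union_comm v u]; exact huv)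
      (by rw [inter_comm v u]; exact hd) h)

end Pool.Agent.N485.TC
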